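import Pool.Agent.MP_151d89_pr.H70.PBd

/-!
The pressure bound.
-/

set_option autoImplicit false
open MeasureTheory Finset

namespace Pool.Agent.MP_151d89_pr.H70
open Pool.Agent.MP_151d89_pr.H82 Pool.Agent.MP_151d89_pr.H33 Pool.Agent.MP_151d89_pr.H67
open Pool.Agent.MP_151d89_pr.H30 Pool.Agent.MP_151d89_pr.H30W
open Pool.Agent.MP_151d89_pr.H5 (ell)
open Pool.Agent.MP_151d89_pr.H9 (nb)
open Classical

namespace PBP

variable {μ : Measure Conf}

theorem iind (hμ : Gibbs μ) {P : Conf → Prop} (h : Measurable P) :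
    Integrable (fun f => ind (P f)) μ := intb hμ (mind h) 1 fun _ => ind_abs _

theorem iXn (hμ : Gibbs μ) (S : Finset (ℤ × ℤ)) (b : Bool) (z : ℤ × ℤ) :
    Integrable (Xn S b z) μ :=
  intb hμ (mXn S b z) S.card fun f => by
    rw [abs_of_nonneg (Xn_mem S b z f).1]
    exact (Xn_mem S b z f).2

/-- multiplication by a bounded function of the label -/
theorem imul {c : Conf → ℤ} (hc : Measurable c) {A : Conf → ℝ} (hA : Integrable A μ) (z : ℤ × ℤ)
    (g : ℤ → ℝ) (hg : ∀ l, |g l| ≤ 1) : Integrable (fun f => A f * g (lab c f z)) μ :=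
  hA.mul_bdd (mw hc z g).aestronglyMeasurable (ae_of_all _ fun _ => hg _)

theorem idiff (P Q : Prop) : |ind P - ind Q| ≤ 1 := by
  have := ind_mem P
  have := ind_mem Q
  rw [abs_le]
  constructor <;> linarith

theorem int_Xn (hμ : Gibbs μ) (S : Finset (ℤ × ℤ)) (b : Bool) (z : ℤ × ℤ)
    (h : Summable fun t : ℕ => μ.real {f | Leg b z t f ∧ Hi b z f}) :
    ∫ f, Xn S b z f ∂μ ≤ fl μ b z := by
  have := hμ.1
  unfold Xn
  rw [integral_finsetSum _ fun t _ =>
    iind hμ (measurable_const.and ((mLeg b z t).and (mHi b z)))]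
  refine le_trans (sum_le_sum fun t _ => ?_) (h.sum_le_tsum _ fun _ _ => measureReal_nonneg)
  rw [int_ind μ (mset (measurable_const.and ((mLeg b z t).and (mHi b z))))]
  exact measureReal_mono fun f hf => hf.2

theorem lo_nb (hμ : Gibbs μ) (b : Bool) (z : ℤ × ℤ) :
    μ.real {f | Lo b z f} = nb (ell μ) (z + dir b) - nb (ell μ) z := by
  have := hμ.1
  have h1 := H5.EllAux.ell_sub hμ (z + dir b) z
  have h2 : ∫ f, ((f (z + dir b) : ℝ) - f z) ∂μ = ∫ f, (1 - 2 * ind (Lo b z f)) ∂μ := by
    refine integral_congr_ae (hμ.2.1.mono fun f hf => ?_)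
    by_cases h : Lo b z f
    · simp only [ind_pos h]
      rw [show f (z + dir b) = f z - 1 from h]
      push_cast
      ring
    · have := NullP.step hf b z
      unfold Lo at h
      simp only [ind_neg (p := Lo b z f) h]
      rw [show f (z + dir b) = f z + 1 by omega]
      push_cast
      ring
  rw [integral_sub (integrable_const _) ((iind hμ (mLo b z)).const_mul 2), integral_const_mul,
    int_ind μ (mset (mLo b z))] at h2
  have h3 : (((z + dir b).1 : ℝ) + (z + dir b).2) = z.1 + z.2 + 1 := by exact_mod_cast dsum b z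
  simp only [integral_const, probReal_univ, smul_eq_mul, mul_one] at h2
  unfold H9.nb
  linarith

/-- the stream function along the two sides of the corner -/
theorem psi (hμ : Gibbs μ) {Ψ : ℤ × ℤ → ℝ} (hΨ : IsPsi μ Ψ) {p q : ℤ × ℤ} (h1 : p.1 ≤ q.1)
    (h2 : q.2 ≤ p.2) :
    ∑ y ∈ Ico q.2 p.2, (fl μ true (p.1, y) + μ.real {f | Val (p.1, y) f}) +
        ∑ x ∈ Ico p.1 q.1, (fl μ false (x, q.2) + μ.real {f | Val (x + 1, q.2) f}) =
      Ψ q - Ψ p + (nb (ell μ) p + nb (ell μ) q) / 2 - nb (ell μ) (p.1, q.2) := by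
  have t1 := tel (fun y => nb (ell μ) (p.1, y) / 2 - Ψ (p.1, y)) h2
  have t2 := tel (fun x => nb (ell μ) (x, q.2) / 2 + Ψ (x, q.2)) h1
  rw [sum_congr rfl (g := fun y => fl μ true (p.1, y) + μ.real {f | Val (p.1, y) f})
    fun y _ => by
      have a := (hΨ.2 (p.1, y)).2
      rw [lo_nb hμ, H60.addN] at a
      linarith] at t1
  rw [sum_congr rfl (g := fun x => fl μ false (x, q.2) + μ.real {f | Val (x + 1, q.2) f})
    fun x _ => by
      have a := (hΨ.2 (x, q.2)).1
      rw [lo_nb hμ, H60.addE] at a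
      linarith] at t2
  rw [t1, t2]
  ring

end PBP

open PBP in
/-- Row PB -/
theorem pb_row (hW : WardStmt) (hS : SumStmt) (hL : LabStmt) : H30W.PBStmt := by
  intro μ hμ hT hN Ψ hΨ a b o p q m j M Q ho ha ha' h1 h2 hb hb' hj hM0 hM hQ hQ'
  have := hμ.1
  obtain ⟨l1, -, l3, -⟩ := hL μ hμ hT
  obtain ⟨hc, hc'⟩ := l1 o a b ho
  obtain ⟨i0, i1⟩ := l3 o (p.1, q.2)
  set c := off μ o
  set S := Icc a b with hSd
  have ward := hW μ hμ a b c (fun z l => ind (W a b p q m j z l)) 1 hc hc'
    (fun _ _ => ind_mem _) fun z l hz => ind_neg fun h => hz h.1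
  have iA : ∀ z, Integrable (fun f =>
      Xn S true z f * (ind (W a b p q m j (z - dir true) (lab c f z)) -
          ind (W a b p q m j z (lab c f z + 1))) +
        Xn S false z f * (ind (W a b p q m j (z - dir false) (lab c f z)) -
          ind (W a b p q m j z (lab c f z + 1))) +
        ind (Val z f ∧ Pk z f) * (ind (W a b p q m j z (lab c f z)) -
          ind (W a b p q m j z (lab c f z + 1)))) μ := fun z =>
    ((imul hc (iXn hμ S true z) z (fun l => ind (W a b p q m j (z - dir true) l) -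
      ind (W a b p q m j z (l + 1))) fun _ => idiff _ _).add
      (imul hc (iXn hμ S false z) z (fun l => ind (W a b p q m j (z - dir false) l) -
        ind (W a b p q m j z (l + 1))) fun _ => idiff _ _)).add
      (imul hc (iind hμ ((mVal z).and (mPk z))) z (fun l => ind (W a b p q m j z l) -
        ind (W a b p q m j z (l + 1))) fun _ => idiff _ _)
  have iB : ∀ z, Integrable (fun f => ind (Val z f) * ind (W a b p q m j z (lab c f z)) -
      ind (Pk z f) * ind (W a b p q m j z (lab c f z + 1))) μ := fun z =>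
    (imul hc (iind hμ (mVal z)) z (fun l => ind (W a b p q m j z l)) fun _ => ind_abs _).sub
      (imul hc (iind hμ (mPk z)) z (fun l => ind (W a b p q m j z (l + 1))) fun _ => ind_abs _)
  have iJ : ∀ z, Integrable (fun f => ind (lab c f z = j) * Xs S z f) μ := fun z => by
    have := imul hc (((iXn hμ S true z).add (iXn hμ S false z)).add
      (iind hμ ((mVal z).and (mPk z)))) z (fun l => ind (l = j)) fun _ => ind_abs _
    simpa only [mul_comm, Xs, Pi.add_apply] using this
  have mb : Measurable fun f => lab c f p ≤ m ∨ lab c f q ≤ m :=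
    ((measurable_from_top (f := fun l : ℤ => l ≤ m)).comp (mlab hc p)).or
      ((measurable_from_top (f := fun l : ℤ => l ≤ m)).comp (mlab hc q))
  have iX : ∀ b z z', Integrable (fun f => Xn S b z f + ind (Val z' f)) μ := fun b z z' =>
    (iXn hμ S b z).add (iind hμ (mVal _))
  have iO1 : Integrable (fun f => ∑ y ∈ Ico q.2 p.2,
      (Xn S true (p.1, y) f + ind (Val (p.1, y) f))) μ :=
    integrable_finsetSum _ fun y _ => iX _ _ _
  have iO2 : Integrable (fun f => ∑ x ∈ Ico p.1 q.1,
      (Xn S false (x, q.2) f + ind (Val (x + 1, q.2) f))) μ :=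
    integrable_finsetSum _ fun y _ => iX _ _ _
  rw [← integral_finsetSum _ fun z _ => iA z, ← integral_finsetSum _ fun z _ => iB z] at ward
  have iA' := integrable_finsetSum S fun z _ => iA z
  have iB' := integrable_finsetSum S fun z _ => iB z
  have iJ' := integrable_finsetSum Q fun z _ => iJ z
  have ib := (iind hμ mb).const_mul (10 * (S.card : ℝ) ^ 2 + M)
  have key := integral_mono_ae (iJ'.add iB')
    (((((iA'.add iO1).add iO2).add i0).add (integrable_const (j - 2 * m : ℝ))).add ib)
    (hμ.2.1.mono fun f hf => by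
      have s := sum_le_sum fun z (hz : z ∈ S) => site (c := c) (f := f) ha ha' hj hQ' hz
      rw [sum_sub hQ] at s
      simp only [add_assoc _ (ind _ * Xn _ true _ f)] at s
      rw [sum_add_distrib, ← hSd] at s
      simp only [Pi.add_apply, sum_add_distrib (s := Ico _ _)]
      by_cases g : lab c f p ≤ m ∨ lab c f q ≤ m
      · have hk : (0 : ℝ) ≤ S.card := Nat.cast_nonneg _
        have hk2 : (S.card : ℝ) ≤ (S.card : ℝ) ^ 2 := by exact_mod_cast Nat.le_self_pow two_ne_zero _
        have b1 : ∑ z ∈ S, (ind (z.1 = p.1 ∧ q.2 ≤ z.2 ∧ lab c f z < m) * Xn S true z f +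
            ind (z.2 = q.2 ∧ p.1 ≤ z.1 ∧ lab c f z < m) * Xn S false z f) ≤
            ∑ _z ∈ S, 2 * (S.card : ℝ) := sum_le_sum fun z _ => by
          have x1 := Xn_mem S true z f
          have x2 := Xn_mem S false z f
          have y1 := mul_le_of_le_one_left x1.1
            (ind_mem (z.1 = p.1 ∧ q.2 ≤ z.2 ∧ lab c f z < m)).2
          have y2 := mul_le_of_le_one_left x2.1
            (ind_mem (z.2 = q.2 ∧ p.1 ≤ z.1 ∧ lab c f z < m)).2
          linarith
        have b2 : ∑ z ∈ S, (ind (Val z f) * ind (W a b p q m j z (lab c f z)) -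
            ind (Pk z f) * ind (W a b p q m j z (lab c f z + 1))) ≤ ∑ _z ∈ S, (1 : ℝ) :=
          sum_le_sum fun z _ => by
            have y1 := mul_le_one₀ (ind_mem (Val z f)).2
              (ind_mem (W a b p q m j z (lab c f z))).1 (ind_mem _).2
            have y2 := mul_nonneg (ind_mem (Pk z f)).1
              (ind_mem (W a b p q m j z (lab c f z + 1))).1
            linarith
        rw [sum_const, nsmul_eq_mul] at b1 b2
        have n1 : 0 ≤ ∑ y ∈ Ico q.2 p.2, Xn S true (p.1, y) f :=
          sum_nonneg fun _ _ => (Xn_mem _ _ _ _).1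
        have n2 : 0 ≤ ∑ x ∈ Ico p.1 q.1, Xn S false (x, q.2) f :=
          sum_nonneg fun _ _ => (Xn_mem _ _ _ _).1
        have n3 : 0 ≤ ∑ y ∈ Ico q.2 p.2, ind (Val (p.1, y) f) := sum_nonneg fun _ _ => (ind_mem _).1
        have n4 : 0 ≤ ∑ x ∈ Ico p.1 q.1, ind (Val (x + 1, q.2) f) :=
          sum_nonneg fun _ _ => (ind_mem _).1
        have n5 := hM f hf
        have n6 : (m : ℝ) ≤ j := by exact_mod_cast hj
        rw [ind_pos g]
        nlinarith
      · rw [ind_neg g]
        push Not at g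
        have r := rhs (c := c) hf ha ha' h1 h2 hb hb' hj g.1 g.2
        have u := out (c := c) hf ha ha' h1 h2 hb hb' g.1 g.2
        rw [← hSd] at r u
        linarith)
  rw [integral_add' iJ' iB', integral_add' (((((iA'.add iO1).add iO2).add i0).add
      (integrable_const _))) ib, integral_add' (((iA'.add iO1).add iO2).add i0) (integrable_const _),
    integral_add' ((iA'.add iO1).add iO2) i0, integral_add' (iA'.add iO1) iO2,
    integral_add' iA' iO1, integral_const_mul, int_ind μ (mset mb), integral_const,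
    probReal_univ, one_smul, integral_finsetSum _ fun z _ => iJ z] at key
  have o1 : ∫ f, ∑ y ∈ Ico q.2 p.2, (Xn S true (p.1, y) f + ind (Val (p.1, y) f)) ∂μ ≤
      ∑ y ∈ Ico q.2 p.2, (fl μ true (p.1, y) + μ.real {f | Val (p.1, y) f}) := by
    rw [integral_finsetSum _ fun y _ => iX _ _ _]
    refine sum_le_sum fun y _ => ?_
    rw [integral_add (iXn hμ S true _) (iind hμ (mVal _)), int_ind μ (mset (mVal _))]
    have := int_Xn hμ S true (p.1, y) (hS μ hμ hT hN true _).2.1
    linarith
  have o2 : ∫ f, ∑ x ∈ Ico p.1 q.1, (Xn S false (x, q.2) f + ind (Val (x + 1, q.2) f)) ∂μ ≤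
      ∑ x ∈ Ico p.1 q.1, (fl μ false (x, q.2) + μ.real {f | Val (x + 1, q.2) f}) := by
    rw [integral_finsetSum _ fun y _ => iX _ _ _]
    refine sum_le_sum fun x _ => ?_
    rw [integral_add (iXn hμ S false _) (iind hμ (mVal _)), int_ind μ (mset (mVal _))]
    have := int_Xn hμ S false (x, q.2) (hS μ hμ hT hN false _).2.1
    linarith
  have e := psi hμ hΨ h1 h2
  unfold H30W.JJ
  linarith

end Pool.Agent.MP_151d89_pr.H70
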