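import Pool.Agent.MP_151d89_pr.H9.Spec
import Pool.Agent.MP_151d89_pr.H30W.Basic

/-!
Pressure bound and chord inequality in a finite box: definitions and statements.
-/

set_option autoImplicit false
open MeasureTheory Filter

namespace Pool.Agent.MP_151d89_pr.H70
open Pool.Agent.MP_151d89_pr.H82 Pool.Agent.MP_151d89_pr.H33 Pool.Agent.MP_151d89_pr.H67
open Pool.Agent.MP_151d89_pr.H30 Pool.Agent.MP_151d89_pr.H30W
open Pool.Agent.MP_151d89_pr.H5 (ell)
open Pool.Agent.MP_151d89_pr.H9 (nb Par gap GeoZ Crn)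
open Classical

/-- the box of radius N as an interval -/
noncomputable def SS (N : ℕ) : Finset (ℤ × ℤ) :=
  Finset.Icc (-(N : ℤ), -(N : ℤ)) ((N : ℤ), (N : ℤ))

/-- all labels in the box are close to their mean levels -/
def Near (μ : Measure Conf) (N : ℕ) (c : Conf → ℤ) (δ : ℝ) (f : Conf) : Prop :=
  ∀ z ∈ SS N, |(lab c f z : ℝ) - nb (ell μ) z| ≤ δ

/-- an offset for the labels in the box, with margin δ and failure probability ρ -/
structure Good (μ : Measure Conf) (N : ℕ) (c : Conf → ℤ) (δ ρ : ℝ) : Prop where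
  pos : 0 ≤ δ
  meas : Measurable c
  loc : ∀ f g : Conf, (∀ y, y ∉ SS N → f y = g y) → c f = c g
  rare : μ.real {f | ¬ Near μ N c δ f} ≤ ρ

/-- mean number of steps from label j + 1 to label j in the quadrant at (X, Y) -/
noncomputable def JJ (μ : Measure Conf) (N : ℕ) (c : Conf → ℤ) (j X Y : ℤ) : ℝ :=
  ∑ z ∈ (SS N).filter (fun z => X ≤ z.1 ∧ Y ≤ z.2), ∫ f, ind (lab c f z = j) * Xs (SS N) z f ∂μ

/-- Row Conc: good offsets exist -/
def ConcStmt : Prop :=
  ∀ μ : Measure Conf, Gibbs μ → Triv μ → ∀ η : ℝ, 0 < η → ∀ k : ℕ,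
    ∀ᶠ N : ℕ in atTop, ∃ c, Good μ N c (η * N) (1 / (N : ℝ) ^ k)

/-- Row PB: the pressure bound -/
def PBStmt : Prop :=
  ∀ μ : Measure Conf, Gibbs μ → Triv μ → NoDesc μ → ∀ Ψ, IsPsi μ Ψ →
    ∀ (N : ℕ) (c : Conf → ℤ) (δ ρ : ℝ), Good μ N c δ ρ →
      ∀ (E n0 : ℝ) (p q : ℤ × ℤ), Crn (ell μ) Ψ E p q n0 → p ∈ SS N → q ∈ SS N →
        ∀ j X Y : ℤ, n0 - E - δ ≤ j → p.1 + (j - n0) + E + δ + 2 ≤ X →
          q.2 + (j - n0) + E + δ + 2 ≤ Y →
            JJ μ N c j X Y ≤ j - n0 + 4 * E + 3 * δ + 2 + 10 * ((SS N).card : ℝ) ^ 2 * ρ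

/-- Row Core: the chord inequality from bounds on the pressure -/
def CoreStmt : Prop :=
  ∀ μ : Measure Conf, Gibbs μ → ∀ (N : ℕ) (c : Conf → ℤ) (δ ρ : ℝ), Good μ N c δ ρ →
    ∀ (m : ℝ) (P : Par), δ < m → GeoZ (ell μ) m P → P.bd (N / 2) → ∀ J1 J2 : ℝ,
      JJ μ N c P.k1 P.X0 P.Y1 ≤ J1 → 0 ≤ J2 →
      (∀ j, P.k1 < j → j < P.k2 → JJ μ N c j P.X0 P.Y1 ≤ J2) →
        gap P ≤ ((P.u : ℝ) - P.u1) * (P.u2 - P.u) * J1 + (P.u2 - P.u1) * (P.k2 - P.k1) * J2 +
          10 * ((SS N).card : ℝ) ^ 3 * ρ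

theorem mem_SS {N : ℕ} {z : ℤ × ℤ} :
    z ∈ SS N ↔ (-(N : ℤ) ≤ z.1 ∧ z.1 ≤ N) ∧ -(N : ℤ) ≤ z.2 ∧ z.2 ≤ N := by
  simp only [SS, Finset.mem_Icc, Prod.le_def]
  tauto

theorem card_SS (N : ℕ) : ((SS N).card : ℝ) = (2 * N + 1) ^ 2 := by
  have : SS N = box 0 N := by
    ext z
    rw [mem_SS, mem_box]
    simp
  rw [this, card_box]
  push_cast
  ring

theorem mNear (μ : Measure Conf) (N : ℕ) {c : Conf → ℤ} (hc : Measurable c) (δ : ℝ) :
    Measurable (Near μ N c δ) :=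
  Measurable.forall fun z => Measurable.imp measurable_const
    ((measurable_from_top (f := fun l : ℤ => |(l : ℝ) - nb (ell μ) z| ≤ δ)).comp (mlab hc z))

/-- integration of an inequality that holds on the good event -/
theorem int_good {μ : Measure Conf} (hμ : Gibbs μ) {N : ℕ} {c : Conf → ℤ} {δ ρ : ℝ}
    (hG : Good μ N c δ ρ) {A B : Conf → ℝ} (hA : Integrable A μ) (hB : Integrable B μ) {K : ℝ}
    (hK : 0 ≤ K) (h1 : ∀ f, Hom f → Near μ N c δ f → A f ≤ B f)
    (h2 : ∀ f, Hom f → A f ≤ B f + K) : ∫ f, A f ∂μ ≤ ∫ f, B f ∂μ + K * ρ := by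
  have := hμ.1
  have hm : Measurable fun f => ¬ Near μ N c δ f := (mNear μ N hG.meas δ).not
  have hi : Integrable (fun f => K * ind (¬ Near μ N c δ f)) μ :=
    (Integrable.of_bound (mind hm).aestronglyMeasurable 1
      (ae_of_all _ fun f => ind_abs _)).const_mul K
  have h3 : ∫ f, A f ∂μ ≤ ∫ f, (B f + K * ind (¬ Near μ N c δ f)) ∂μ := by
    refine integral_mono_ae hA (hB.add hi) (hμ.2.1.mono fun f hf => ?_)
    by_cases h : Near μ N c δ f
    · simpa [ind_neg (not_not.2 h)] using h1 f hf h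
    · simpa [ind_pos h] using h2 f hf
  rw [integral_add hB hi, integral_const_mul, int_ind μ (mset hm)] at h3
  exact h3.trans (by gcongr; exact hG.rare)

/-- bounded measurable functions are integrable -/
theorem intb {μ : Measure Conf} (hμ : Gibbs μ) {A : Conf → ℝ} (hA : Measurable A) (K : ℝ)
    (h : ∀ f, |A f| ≤ K) : Integrable A μ := by
  have := hμ.1
  exact Integrable.of_bound hA.aestronglyMeasurable K (ae_of_all _ h)

/-- the face identity for a function of the label -/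
theorem face {c : Conf → ℤ} {f : Conf} (hf : Hom f) (φ : ℤ → ℝ) (z : ℤ × ℤ) :
    φ (lab c f (z + dir true + dir false)) - φ (lab c f (z + dir true)) -
        φ (lab c f (z + dir false)) + φ (lab c f z) =
      ind (Val (z + dir true + dir false) f) *
          (φ (lab c f (z + dir true + dir false)) - φ (lab c f (z + dir true + dir false) - 1)) -
        ind (Pk z f) * (φ (lab c f z + 1) - φ (lab c f z)) := by
  have e : z + dir true + dir false = z + dir false + dir true := add_right_comm _ _ _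
  have hv : Val (z + dir true + dir false) f ↔
      Lo true (z + dir false) f ∧ Lo false (z + dir true) f := by
    rw [Val, hi_add, e, hi_add]
  have s : ∀ b y, (Lo b y f ∧ lab c f (y + dir b) = lab c f y + 1) ∨
      (¬ Lo b y f ∧ lab c f (y + dir b) = lab c f y) := fun b y => by
    by_cases h : Lo b y f
    · exact Or.inl ⟨h, lab_lo h⟩
    · exact Or.inr ⟨h, lab_nlo hf h⟩
  have s3 := s true (z + dir false)
  rw [← e] at s3
  rcases s true z with ⟨a1, a2⟩ | ⟨a1, a2⟩ <;> rcases s false z with ⟨b1, b2⟩ | ⟨b1, b2⟩ <;>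
    rcases s3 with ⟨c1, c2⟩ | ⟨c1, c2⟩ <;>
    rcases s false (z + dir true) with ⟨d1, d2⟩ | ⟨d1, d2⟩ <;>
    first
      | omega
      | (simp only [ind, hv, Pk, a1, b1, c1, d1, d2, a2, b2]; simp; done)
      | (simp only [ind, hv, Pk, a1, b1, c1, d1, d2, a2, b2]; simp; ring)

end Pool.Agent.MP_151d89_pr.H70
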