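import Pool.Agent.MP_151d89_pr.H30W.Spec2
import Pool.Agent.MP_151d89_pr.H60.Alt
import Pool.Agent.MP_151d89_pr.H70.Spec

/-!
The pressure bound: the inequalities for one configuration.
-/

set_option autoImplicit false
open MeasureTheory Finset

namespace Pool.Agent.MP_151d89_pr.H70
open Pool.Agent.MP_151d89_pr.H82 Pool.Agent.MP_151d89_pr.H33 Pool.Agent.MP_151d89_pr.H67
open Pool.Agent.MP_151d89_pr.H30 Pool.Agent.MP_151d89_pr.H30W
open Classical

namespace PBP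

theorem sum_l (g : ℤ → ℝ) {x0 x1 : ℤ} (h : x0 ≤ x1) :
    ∑ x ∈ Icc x0 x1, g x = g x0 + ∑ x ∈ Ico x0 x1, g (x + 1) := by
  rw [← sum_Ioc_add_eq_sum_Icc h, add_comm]
  congr 1
  refine (sum_nbij' (fun x => x + 1) (fun x => x - 1) ?_ ?_ ?_ ?_ ?_).symm <;> simp

theorem tel (g : ℤ → ℝ) {x0 x1 : ℤ} (h : x0 ≤ x1) :
    ∑ x ∈ Ico x0 x1, (g (x + 1) - g x) = g x1 - g x0 := by
  have h1 := sum_l g h
  have h2 := sum_Ico_add_eq_sum_Icc (f := g) h
  rw [sum_sub_distrib]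
  linarith

theorem face' {c : Conf → ℤ} {f : Conf} (hf : Hom f) (m x y : ℤ) :
    ind (Val (x + 1, y + 1) f ∧ lab c f (x + 1, y + 1) ≤ m) -
        ind (Pk (x, y) f ∧ lab c f (x, y) + 1 ≤ m) =
      (((min (lab c f (x + 1, y + 1)) m : ℤ) : ℝ) - (min (lab c f (x, y + 1)) m : ℤ)) -
        (((min (lab c f (x + 1, y)) m : ℤ) : ℝ) - (min (lab c f (x, y)) m : ℤ)) := by
  have h := face (c := c) hf (fun l => ((min l m : ℤ) : ℝ)) (x, y)
  rw [H60.addE, H60.addN, H60.addN] at h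
  have e : ∀ (p : Prop) (l : ℤ), ind p * (((min l m : ℤ) : ℝ) - (min (l - 1) m : ℤ)) =
      ind (p ∧ l ≤ m) := fun p l => by
    by_cases a : p <;> by_cases b : l ≤ m
    · rw [ind_pos a, ind_pos ⟨a, b⟩, min_eq_left b, min_eq_left (by omega)]
      push_cast
      ring
    · rw [ind_neg fun h : p ∧ l ≤ m => b h.2, min_eq_right (by omega), min_eq_right (by omega)]
      ring
    · rw [ind_neg a, ind_neg fun h : p ∧ l ≤ m => a h.1, zero_mul]
    · rw [ind_neg a, ind_neg fun h : p ∧ l ≤ m => a h.1, zero_mul]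
  have e2 := e (Pk (x, y) f) (lab c f (x, y) + 1)
  rw [add_sub_cancel_right] at e2
  rw [e, e2] at h
  linarith

/-- the low labels -/
theorem low {c : Conf → ℤ} {f : Conf} (hf : Hom f) (m : ℤ) {x0 y0 x1 y1 : ℤ} (hx : x0 ≤ x1)
    (hy : y0 ≤ y1) (h1 : m ≤ lab c f (x0, y1)) (h2 : m ≤ lab c f (x1, y0)) :
    ∑ z ∈ Icc (x0, y0) (x1, y1),
        (ind (Val z f ∧ lab c f z ≤ m) - ind (Pk z f ∧ lab c f z + 1 ≤ m)) ≤
      ∑ y ∈ Icc y0 y1, ind (Val (x0, y) f ∧ lab c f (x0, y) ≤ m) +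
        ∑ x ∈ Ico x0 x1, ind (Val (x + 1, y0) f ∧ lab c f (x + 1, y0) ≤ m) +
        lab c f (x0, y0) - m := by
  have h3 := (H60.lab_mono (c := c) hf hx (le_refl y1)).1
  rw [sum_sub_distrib, Icc_prod_def, sum_product, sum_product]
  simp only
  rw [sum_l _ hx, ← sum_Ico_add_eq_sum_Icc hx]
  have k1 : ∀ x ∈ Ico x0 x1,
      ∑ y ∈ Icc y0 y1, ind (Val (x + 1, y) f ∧ lab c f (x + 1, y) ≤ m) -
        ∑ y ∈ Icc y0 y1, ind (Pk (x, y) f ∧ lab c f (x, y) + 1 ≤ m) ≤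
      ind (Val (x + 1, y0) f ∧ lab c f (x + 1, y0) ≤ m) +
        ((((min (lab c f (x + 1, y1)) m : ℤ) : ℝ) - (min (lab c f (x + 1, y0)) m : ℤ)) -
          (((min (lab c f (x, y1)) m : ℤ) : ℝ) - (min (lab c f (x, y0)) m : ℤ))) := fun x _ => by
    rw [sum_l _ hy, ← sum_Ico_add_eq_sum_Icc hy]
    have t := tel (fun y => ((min (lab c f (x + 1, y)) m : ℤ) : ℝ) - (min (lab c f (x, y)) m : ℤ)) hy
    rw [← sum_congr rfl fun y _ => face' (c := c) hf m x y, sum_sub_distrib] at t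
    have := (ind_mem (Pk (x, y1) f ∧ lab c f (x, y1) + 1 ≤ m)).1
    linarith
  have k2 := sum_le_sum k1
  rw [sum_sub_distrib, sum_add_distrib,
    tel (fun x => ((min (lab c f (x, y1)) m : ℤ) : ℝ) - (min (lab c f (x, y0)) m : ℤ)) hx,
    min_eq_right h1, min_eq_right h2, min_eq_right (h1.trans h3)] at k2
  have k3 : (0 : ℝ) ≤ ∑ y ∈ Icc y0 y1, ind (Pk (x1, y) f ∧ lab c f (x1, y) + 1 ≤ m) :=
    sum_nonneg fun _ _ => (ind_mem _).1
  have k4 : ((min (lab c f (x0, y0)) m : ℤ) : ℝ) ≤ lab c f (x0, y0) := by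
    exact_mod_cast min_le_left _ _
  linarith

/-- the support of the weight -/
def W (a b p q : ℤ × ℤ) (m j : ℤ) (z : ℤ × ℤ) (l : ℤ) : Prop :=
  z ∈ Icc a b ∧ l ≤ j ∧ p.1 ≤ z.1 ∧ q.2 ≤ z.2 ∧ p.1 - m ≤ z.1 - l ∧ q.2 - m ≤ z.2 - l

theorem mem2 {a b z : ℤ × ℤ} :
    z ∈ Icc a b ↔ (a.1 ≤ z.1 ∧ a.2 ≤ z.2) ∧ z.1 ≤ b.1 ∧ z.2 ≤ b.2 := by
  simp only [mem_Icc, Prod.le_def]

variable {a b p q : ℤ × ℤ} {m j : ℤ} {c : Conf → ℤ} {f : Conf}

theorem split (ha : a.1 ≤ p.1) (ha' : a.2 ≤ q.2) (hj : m ≤ j) (P : Prop) (z : ℤ × ℤ) (l : ℤ) :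
    ind P * ind (W a b p q m j z l) = ind (z ∈ Icc (p.1, q.2) b) * ind (P ∧ l ≤ m) +
      ∑ i ∈ Ioc m j, ind (z ∈ Icc (p.1 + (i - m), q.2 + (i - m)) b) * ind (P ∧ l = i) := by
  by_cases hP : P
  swap
  · simp [ind, hP]
  by_cases h1 : l ≤ m
  · rw [sum_eq_zero fun i hi => by
      rw [ind_neg (p := P ∧ l = i) fun h => by have := mem_Ioc.1 hi; omega, mul_zero],
      ind_pos hP, ind_pos (p := P ∧ l ≤ m) ⟨hP, h1⟩, one_mul, mul_one, add_zero]
    congr 1
    simp only [W, mem2, eq_iff_iff]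
    omega
  rw [ind_neg (p := P ∧ l ≤ m) fun h => h1 h.2, ind_pos hP, one_mul, mul_zero, zero_add]
  by_cases h2 : l ≤ j
  · rw [sum_eq_single_of_mem l (mem_Ioc.2 ⟨by omega, h2⟩) fun i _ hi => by
      rw [ind_neg (p := P ∧ l = i) fun h => hi h.2.symm, mul_zero],
      ind_pos (p := P ∧ l = l) ⟨hP, rfl⟩, mul_one]
    congr 1
    simp only [W, mem2, eq_iff_iff]
    omega
  · rw [ind_neg fun h : W a b p q m j z l => h2 h.2.1, sum_eq_zero fun i hi => by
      rw [ind_neg (p := P ∧ l = i) fun h => by have := mem_Ioc.1 hi; omega, mul_zero]]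

theorem sum_sub {S T : Finset (ℤ × ℤ)} (h : T ⊆ S) (g : ℤ × ℤ → ℝ) :
    ∑ z ∈ S, ind (z ∈ T) * g z = ∑ z ∈ T, g z := by
  rw [← sum_subset h fun z _ hz => by rw [ind_neg hz, zero_mul]]
  exact sum_congr rfl fun z hz => by rw [ind_pos hz, one_mul]

/-- valleys minus peaks -/
theorem rhs (hf : Hom f) (ha : a.1 ≤ p.1) (ha' : a.2 ≤ q.2) (h1 : p.1 ≤ q.1) (h2 : q.2 ≤ p.2)
    (hb : q.1 ≤ b.1) (hb' : p.2 ≤ b.2) (hj : m ≤ j) (gp : m < lab c f p) (gq : m < lab c f q) :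
    ∑ z ∈ Icc a b, (ind (Val z f) * ind (W a b p q m j z (lab c f z)) -
        ind (Pk z f) * ind (W a b p q m j z (lab c f z + 1))) ≤
      ∑ y ∈ Ico q.2 p.2, ind (Val (p.1, y) f) + ∑ x ∈ Ico p.1 q.1, ind (Val (x + 1, q.2) f) +
        lab c f (p.1, q.2) - 2 * m + j := by
  have e : ∀ z, ind (Val z f) * ind (W a b p q m j z (lab c f z)) -
      ind (Pk z f) * ind (W a b p q m j z (lab c f z + 1)) =
      ind (z ∈ Icc (p.1, q.2) b) *
        (ind (Val z f ∧ lab c f z ≤ m) - ind (Pk z f ∧ lab c f z + 1 ≤ m)) +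
      ∑ i ∈ Ioc m j, ind (z ∈ Icc (p.1 + (i - m), q.2 + (i - m)) b) *
        (ind (Val z f ∧ lab c f z = i) - ind (Pk z f ∧ lab c f z + 1 = i)) := fun z => by
    rw [split ha ha' hj, split ha ha' hj]
    simp only [mul_sub, sum_sub_distrib]
    ring
  rw [sum_congr rfl fun z _ => e z, sum_add_distrib, sum_comm,
    sum_sub fun z hz => by rw [mem2] at hz ⊢; simp only at hz; omega]
  have k1 : ∑ i ∈ Ioc m j, ∑ z ∈ Icc a b, ind (z ∈ Icc (p.1 + (i - m), q.2 + (i - m)) b) *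
      (ind (Val z f ∧ lab c f z = i) - ind (Pk z f ∧ lab c f z + 1 = i)) ≤ j - m := by
    refine (sum_le_sum (g := fun _ => (1 : ℝ)) fun i hi => ?_).trans ?_
    · have := mem_Ioc.1 hi
      rw [sum_sub fun z hz => by rw [mem2] at hz ⊢; simp only at hz; omega]
      exact H60.alt hf i _ fun v hv w hw z a1 a2 a3 a4 => by
        rw [mem2] at hv hw ⊢
        omega
    · rw [sum_const, Int.card_Ioc, nsmul_eq_mul, mul_one]
      have : (((j - m).toNat : ℤ) : ℝ) = (j - m : ℤ) := by rw [Int.toNat_of_nonneg (by omega)]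
      push_cast at this
      exact this.le
  have k2 := low (c := c) hf m (x0 := p.1) (y0 := q.2) (x1 := b.1) (y1 := b.2) (by omega) (by omega)
    (gp.le.trans (H60.lab_le hf le_rfl hb')) (gq.le.trans (H60.lab_le hf hb le_rfl))
  have mo : ∀ (P Q : Prop), ind (P ∧ Q) ≤ ind P := fun P Q => by
    by_cases h : P ∧ Q
    · rw [ind_pos h, ind_pos h.1]
    · rw [ind_neg h]
      exact (ind_mem _).1
  have k3 : ∑ y ∈ Icc q.2 b.2, ind (Val (p.1, y) f ∧ lab c f (p.1, y) ≤ m) ≤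
      ∑ y ∈ Ico q.2 p.2, ind (Val (p.1, y) f) := by
    rw [← sum_subset (s₁ := Ico q.2 p.2) (fun y hy => by simp only [mem_Ico, mem_Icc] at *; omega)
      fun y hy hy' => ind_neg fun h => ?_]
    · exact sum_le_sum fun _ _ => mo _ _
    · have := H60.lab_le (c := c) hf (z := p) (w := (p.1, y)) le_rfl
        (by simp only [mem_Ico, mem_Icc] at *; omega)
      omega
  have k4 : ∑ x ∈ Ico p.1 b.1, ind (Val (x + 1, q.2) f ∧ lab c f (x + 1, q.2) ≤ m) ≤
      ∑ x ∈ Ico p.1 q.1, ind (Val (x + 1, q.2) f) := by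
    rw [← sum_subset (s₁ := Ico p.1 q.1) (fun y hy => by simp only [mem_Ico] at *; omega)
      fun x hx hx' => ind_neg fun h => ?_]
    · exact sum_le_sum fun _ _ => mo _ _
    · have := H60.lab_le (c := c) hf (z := q) (w := (x + 1, q.2))
        (by simp only [mem_Ico] at *; omega) le_rfl
      omega
  linarith

theorem step (Q : Prop) (A B C : Prop) (h1 : Q → A ∧ ¬ B) (h2 : B → ¬ C → A) :
    ind Q - ind C ≤ ind A - ind B := by
  by_cases q : Q <;> by_cases a : A <;> by_cases b : B <;> by_cases c : C <;> simp_all [ind]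

/-- the steps at one site -/
theorem site (ha : a.1 ≤ p.1) (ha' : a.2 ≤ q.2) (hj : m ≤ j) {Q : Finset (ℤ × ℤ)}
    (hQ : ∀ z ∈ Q, p.1 + (j - m) < z.1 ∧ q.2 + (j - m) < z.2) {z : ℤ × ℤ} (hz : z ∈ Icc a b) :
    ind (z ∈ Q) * (ind (lab c f z = j) * Xs (Icc a b) z f) ≤
      (Xn (Icc a b) true z f * (ind (W a b p q m j (z - dir true) (lab c f z)) -
          ind (W a b p q m j z (lab c f z + 1))) +
        Xn (Icc a b) false z f * (ind (W a b p q m j (z - dir false) (lab c f z)) -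
          ind (W a b p q m j z (lab c f z + 1))) +
        ind (Val z f ∧ Pk z f) * (ind (W a b p q m j z (lab c f z)) -
          ind (W a b p q m j z (lab c f z + 1)))) +
      ind (z.1 = p.1 ∧ q.2 ≤ z.2 ∧ lab c f z < m) * Xn (Icc a b) true z f +
      ind (z.2 = q.2 ∧ p.1 ≤ z.1 ∧ lab c f z < m) * Xn (Icc a b) false z f := by
  have e : ind (z ∈ Q) * ind (lab c f z = j) = ind (z ∈ Q ∧ lab c f z = j) := by
    by_cases h : z ∈ Q <;> by_cases h' : lab c f z = j <;> simp [ind, h, h']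
  have hq := hQ z
  rw [mem2] at hz
  have s1 := step (z ∈ Q ∧ lab c f z = j) (W a b p q m j (z - dir true) (lab c f z))
    (W a b p q m j z (lab c f z + 1)) (z.1 = p.1 ∧ q.2 ≤ z.2 ∧ lab c f z < m)
    (fun h => by
      have := hq h.1
      have := h.2
      simp only [W, mem2, dir, Prod.fst_sub, Prod.snd_sub]
      omega)
    (by simp only [W, mem2, dir, Prod.fst_sub, Prod.snd_sub]; omega)
  have s2 := step (z ∈ Q ∧ lab c f z = j) (W a b p q m j (z - dir false) (lab c f z))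
    (W a b p q m j z (lab c f z + 1)) (z.2 = q.2 ∧ p.1 ≤ z.1 ∧ lab c f z < m)
    (fun h => by
      have := hq h.1
      have := h.2
      simp only [W, mem2, dir, Prod.fst_sub, Prod.snd_sub]
      omega)
    (by simp only [W, mem2, dir, Prod.fst_sub, Prod.snd_sub]; omega)
  have s3 := step (z ∈ Q ∧ lab c f z = j) (W a b p q m j z (lab c f z))
    (W a b p q m j z (lab c f z + 1)) False
    (fun h => by
      have := hq h.1
      have := h.2
      simp only [W, mem2]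
      omega)
    (by simp only [W, mem2]; omega)
  rw [ind_neg not_false] at s3
  have t1 := mul_le_mul_of_nonneg_left s1 (Xn_mem (Icc a b) true z f).1
  have t2 := mul_le_mul_of_nonneg_left s2 (Xn_mem (Icc a b) false z f).1
  have t3 := mul_le_mul_of_nonneg_left s3 (ind_mem (Val z f ∧ Pk z f)).1
  rw [← mul_assoc, e, Xs]
  linarith

/-- the outflow on the good event -/
theorem out (hf : Hom f) (ha : a.1 ≤ p.1) (ha' : a.2 ≤ q.2) (h1 : p.1 ≤ q.1) (h2 : q.2 ≤ p.2)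
    (hb : q.1 ≤ b.1) (hb' : p.2 ≤ b.2) (gp : m < lab c f p) (gq : m < lab c f q) :
    ∑ z ∈ Icc a b, (ind (z.1 = p.1 ∧ q.2 ≤ z.2 ∧ lab c f z < m) * Xn (Icc a b) true z f +
        ind (z.2 = q.2 ∧ p.1 ≤ z.1 ∧ lab c f z < m) * Xn (Icc a b) false z f) ≤
      ∑ y ∈ Ico q.2 p.2, Xn (Icc a b) true (p.1, y) f +
        ∑ x ∈ Ico p.1 q.1, Xn (Icc a b) false (x, q.2) f := by
  have mo : ∀ (P Q : Prop), (P → Q) → ind P ≤ ind Q := fun P Q h => by
    by_cases h' : P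
    · rw [ind_pos h', ind_pos (h h')]
    · rw [ind_neg h']
      exact (ind_mem _).1
  have e1 : ∑ y ∈ Ico q.2 p.2, Xn (Icc a b) true (p.1, y) f =
      ∑ z ∈ Icc a b, ind (z ∈ {p.1} ×ˢ Ico q.2 p.2) * Xn (Icc a b) true z f := by
    rw [sum_sub fun z hz => by
      simp only [mem_product, mem_singleton, mem_Ico] at hz; rw [mem2]; omega, sum_product,
      sum_singleton]
  have e2 : ∑ x ∈ Ico p.1 q.1, Xn (Icc a b) false (x, q.2) f =
      ∑ z ∈ Icc a b, ind (z ∈ Ico p.1 q.1 ×ˢ {q.2}) * Xn (Icc a b) false z f := by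
    rw [sum_sub fun z hz => by
      simp only [mem_product, mem_singleton, mem_Ico] at hz; rw [mem2]; omega, sum_product]
    simp only [sum_singleton]
  rw [e1, e2, ← sum_add_distrib]
  refine sum_le_sum fun z _ => add_le_add
    (mul_le_mul_of_nonneg_right (mo _ _ fun h => ?_) (Xn_mem _ _ _ _).1)
    (mul_le_mul_of_nonneg_right (mo _ _ fun h => ?_) (Xn_mem _ _ _ _).1)
  · simp only [mem_product, mem_singleton, mem_Ico]
    refine ⟨h.1, h.2.1, lt_of_not_ge fun e => ?_⟩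
    have := H60.lab_le (c := c) hf (z := p) (w := z) h.1.ge e
    omega
  · simp only [mem_product, mem_singleton, mem_Ico]
    refine ⟨⟨h.2.1, lt_of_not_ge fun e => ?_⟩, h.1⟩
    have := H60.lab_le (c := c) hf (z := q) (w := z) e h.1.ge
    omega

end PBP

end Pool.Agent.MP_151d89_pr.H70
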